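import Pool.Agent.Run7.h520.MZ.I
import Pool.Agent.Run7.h781.WO.RN

/-! Pieces BAS, CAT, LS. -/

set_option autoImplicit false

namespace Run7.h520.MZ
open FirstOrder FirstOrder.Language

instance : Countable M0 := by
  unfold M0
  infer_instance

instance : Infinite M0 := by
  have : Infinite V := inferInstance
  exact Infinite.of_injective (fun v : V => (Sum.inl v : M0)) Sum.inl_injective

theorem card : LZ.card ≤ Cardinal.aleph0 := by
  have h1 : Countable ((l : ℕ) × LZ.Functions l) := by
    have : ∀ l, IsEmpty (LZ.Functions l) := fun l => inferInstanceAs (IsEmpty Empty)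
    infer_instance
  have h2 : Countable ((l : ℕ) × LZ.Relations l) := by
    have : ∀ l, Countable (LZ.Relations l) := by
      intro l
      have : Function.Injective (fun r : Rel l => match r with
          | Rel.P => (none : Option ℕ)
          | Rel.lin n => some n) := by
        intro r s h
        cases r <;> cases s <;> simp_all
      exact this.countable
    infer_instance
  have h3 : Countable LZ.Symbols := by
    unfold Language.Symbols
    infer_instance
  exact Cardinal.mk_le_aleph0_iff.2 h3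

theorem bas : S_BAS := by
  refine ⟨card, inferInstance, inferInstance, fun α β s t r => ⟨?_, ?_, ?_, ?_⟩⟩
  · exact ⟨fun _ => Iff.rfl, fun _ _ => Iff.rfl, fun _ => Iff.rfl⟩
  · exact fun h => ⟨fun i => (h.P i).symm, fun i j => (h.eq i j).symm, fun c => (h.lin c).symm⟩
  · exact fun h h' => ⟨fun i => (h.P i).trans (h'.P i), fun i j => (h.eq i j).trans (h'.eq i j),
      fun c => (h.lin c).trans (h'.lin c)⟩
  · intro g h
    refine ⟨fun i => h.P (g i), fun i j => h.eq (g i) (g j), fun c => ?_⟩
    have e : ∀ s : α → M0, lc (s ∘ g) c = lc s (c.mapDomain g) := by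
      intro s
      unfold lc
      rw [Finsupp.linearCombination_mapDomain]
      rfl
    rw [e, e]
    exact h.lin _

theorem cat : S_CAT := by
  intro hBAS hFORTH hFINT hINV
  have : Nonempty M0 := ⟨Sum.inl 0⟩
  refine Run7.h781.WO.rn LZ M0 ?_
  intro n
  obtain ⟨F, hF, hF2⟩ := hFINT (Fin n)
  refine ⟨F, hF, fun t => ?_⟩
  obtain ⟨s, hs, hst⟩ := hF2 t
  exact ⟨s, hs, hINV hBAS hFORTH (Fin n) s t hst⟩

theorem ls : S_LS := by
  intro hBAS hcat N _ hN A hA
  have hne0 : Nonempty M0 := ⟨Sum.inl 0⟩
  have hmod : M0 ⊨ T0 := inferInstanceAs (M0 ⊨ LZ.completeTheory M0)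
  -- `N` is elementarily equivalent to `M0`
  have hEE : ∀ φ : LZ.Sentence, M0 ⊨ φ → N ⊨ φ := fun φ h => hN.realize_of_mem φ h
  have hinf : Infinite N := by
    have h1 : N ⊨ LZ.infiniteTheory := by
      have h0 : M0 ⊨ LZ.infiniteTheory := (model_infiniteTheory_iff LZ).2 inferInstance
      exact ⟨fun φ hφ => hEE φ (h0.realize_of_mem φ hφ)⟩
    exact (model_infiniteTheory_iff LZ).1 h1
  have hcount : Cardinal.lift.{0} (Cardinal.mk A) ≤ Cardinal.lift.{0} Cardinal.aleph0 := by
    simpa using hA.le_aleph0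
  obtain ⟨S, hAS, hS⟩ := LZ.exists_elementarySubstructure_card_eq (M := N) A Cardinal.aleph0
    le_rfl hcount (by simpa using card) (by
      simpa using Cardinal.aleph0_le_mk N)
  have hS2 : Cardinal.mk S = Cardinal.aleph0 := by simpa using hS
  have hST : S ⊨ T0 := by
    have := S.subtype
    exact (S.subtype.theory_model_iff T0).2 hN
  obtain ⟨e⟩ := hcat (Theory.ModelType.of T0 M0) (Theory.ModelType.of T0 S)
    (Cardinal.mk_eq_aleph0 M0) hS2
  have e' : M0 ≃[LZ] S := e
  refine ⟨S.subtype.comp e'.toElementaryEmbedding, ?_⟩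
  intro a ha
  refine ⟨e'.symm ⟨a, hAS ha⟩, ?_⟩
  show ((e' (e'.symm ⟨a, hAS ha⟩) : S) : N) = a
  rw [e'.apply_symm_apply]

end Run7.h520.MZ
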