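import Pool.Agent.Run7.h520.MZ.MAIN
import Pool.Agent.Run7.h520.MZ.BAS
import Pool.Agent.Run7.h586.MZ.FO
import Pool.Agent.Run7.h160.MZ.COV
import Pool.Agent.Run7.h593.MZ.INV
import Pool.Agent.Run7.h593.MZ.STR
import Pool.Agent.Run7.h593.MZ.TYP
import Pool.Agent.Run7.h228.MZ.DEF
import Pool.Agent.Run7.h228.MZ.ACL
import Pool.Agent.Run7.h228.MZ.EX
import Pool.Agent.Run7.h228.MZ.SM
import Pool.Agent.Run7.h91.MZ.UP
import Pool.Agent.Run7.h811.MZ.OS

/-! Assembly of all pieces. -/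

namespace Run7.h520.MZ

theorem answer : Answer :=
  main bas Run7.h586.MZ.t_forth Run7.h586.MZ.t_over Run7.h160.MZ.fint inv Run7.h160.MZ.cov cat ls
    Run7.h228.MZ.deff Run7.h228.MZ.acl Run7.h91.MZ.up Run7.h228.MZ.ex Run7.h228.MZ.sm typ str
    Pool.Agent.Run7.h811.MZ.os

end Run7.h520.MZ
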