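import Mathlib

/-!
# MP_5076ba_lc : a counterexample to Mazoyer's hypothesis

Interface. The structure `M0`: `P = V` (an infinite vector space over `ZMod 2`, as an affine space) and
`X = (V ∖ 0) × ℕ`; a point `(w, k)` of `X` acts on `P` by the translation by `w`. A set
`A = {x_1, ..., x_k} ⊆ X` is algebraically closed; with one point `b` of `P` it gives
`c = b + w_1 + ... + w_k`, and all the `x_i` are necessary if the `w_i` are independent.

Table of pieces: `h520_pieces_mz (piece, title, status, seat, at, note)`. Everything below marked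
`S_XXX` is a piece; put your proof in `Pool/Agent/Run7/<you>/MZ/XXX.lean` as `theorem xxx : S_XXX`.
-/

set_option autoImplicit false

namespace Run7.h520.MZ
open FirstOrder FirstOrder.Language

/-! ## The answer -/

/-- Algebraic closure. -/
def Acl (L : FirstOrder.Language.{0, 0}) {M : Type} [L.Structure M] (A : Set M) : Set M :=
  {c | ∃ s : Set M, s.Finite ∧ A.Definable₁ L s ∧ c ∈ s}

/-- `T` is omega-stable: countably many complete 1-types over countable subsets of models. -/
def OmegaStable {L : FirstOrder.Language.{0, 0}} (T : L.Theory) : Prop :=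
  ∀ (M : Type) [L.Structure M] [M ⊨ T] [Nonempty M] (A : Set M), A.Countable →
    Countable ((L[[A]].completeTheory M).CompleteType (Fin 1))

/-- `p` is a strongly minimal type: it contains a strongly minimal formula (infinite, and every subset
definable with parameters in a model is finite or cofinite) and is not algebraic (every
formula of `p` has infinitely many solutions). -/
def StrMin {L : FirstOrder.Language.{0, 0}} (T : L.Theory) (p : T.CompleteType (Fin 1)) : Prop :=
  (∃ φ : L.Formula (Fin 1), Formula.equivSentence φ ∈ p ∧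
    ∀ (M : Type) [L.Structure M] [M ⊨ T] [Nonempty M],
      {x : M | φ.Realize (fun _ => x)}.Infinite ∧
      ∀ D : Set M, (Set.univ : Set M).Definable₁ L D →
        ({x : M | φ.Realize (fun _ => x)} ∩ D).Finite ∨
        ({x : M | φ.Realize (fun _ => x)} \ D).Finite) ∧
  ∀ φ : L.Formula (Fin 1), Formula.equivSentence φ ∈ p →
    ∀ (M : Type) [L.Structure M] [M ⊨ T] [Nonempty M], {x : M | φ.Realize (fun _ => x)}.Infinite

/-- `c` realizes `p`. -/
def Real {L : FirstOrder.Language.{0, 0}} {T : L.Theory} (p : T.CompleteType (Fin 1)) {M : Type}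
    [L.Structure M] (c : M) : Prop :=
  ∀ φ : L.Formula (Fin 1), Formula.equivSentence φ ∈ p ↔ φ.Realize (fun _ => c)

/-- The answer: there is a strongly minimal type, and for every strongly minimal type, every `n` and every
model there are `A`, `b`, `c` as in the negation of the hypothesis, with one element `b`. -/
def Answer : Prop :=
  ∃ (L : FirstOrder.Language.{0, 0}) (T : L.Theory), L.card ≤ Cardinal.aleph0 ∧ T.IsComplete ∧
    Cardinal.Categorical (Cardinal.aleph0 : Cardinal.{0}) T ∧ OmegaStable T ∧
    (∃ p : T.CompleteType (Fin 1), StrMin T p) ∧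
    ∀ p : T.CompleteType (Fin 1), StrMin T p → ∀ n : ℕ,
      ∀ (M : Type) [L.Structure M] [M ⊨ T] [Nonempty M], ∃ (A : Set M) (b c : M),
        Real p c ∧ Acl L A = A ∧ c ∈ Acl L (A ∪ {b}) ∧
        ∀ A' ⊆ A, A'.Finite → A'.ncard ≤ n → c ∉ Acl L (A' ∪ {b})

/-! ## The structure -/

/-- The vector space. -/
abbrev V : Type := ℕ →₀ ZMod 2

/-- The points: `P ⊕ X`. -/
def M0 : Type := V ⊕ ({w : V // w ≠ 0} × ℕ)

/-- The value. -/
def val : M0 → V × ZMod 2
  | Sum.inl p => (p, 1)
  | Sum.inr x => (x.1.1, 0)

/-- `x` is in `P`. -/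
def isP : M0 → Prop
  | Sum.inl _ => True
  | Sum.inr _ => False

/-- The relation symbols. -/
inductive Rel : ℕ → Type
  | P : Rel 1
  | lin (n : ℕ) : Rel n

/-- The language. -/
def LZ : FirstOrder.Language.{0, 0} := ⟨fun _ => Empty, Rel⟩

/-- The structure: `P`, and `lin n (x_1, ..., x_n)`: the sum of the values is `0`. -/
instance : LZ.Structure M0 where
  funMap := fun {_} f => f.elim
  RelMap := fun {_} r => match r with
    | Rel.P => fun v => isP (v 0)
    | Rel.lin _ => fun v => ∑ i, val (v i) = 0

/-- The predicate `P` in a structure. -/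
def inP {N : Type} [LZ.Structure N] (x : N) : Prop := @Structure.RelMap LZ N _ 1 Rel.P ![x]

/-- The theory. -/
def T0 : LZ.Theory := LZ.completeTheory M0

/-- Linear combinations of the values. -/
noncomputable def lc {α : Type} (s : α → M0) (c : α →₀ ZMod 2) : V × ZMod 2 :=
  Finsupp.linearCombination (ZMod 2) (fun i => val (s i)) c

/-- Similar tuples. -/
structure Sim {α : Type} (s t : α → M0) : Prop where
  P : ∀ i, isP (s i) ↔ isP (t i)
  eq : ∀ i j, s i = s j ↔ t i = t j
  lin : ∀ c : α →₀ ZMod 2, lc s c = 0 ↔ lc t c = 0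

/-- Equality of types over the empty set. -/
def STp (L : FirstOrder.Language.{0, 0}) {N N' : Type} [L.Structure N] [L.Structure N']
    {α : Type} (s : α → N) (t : α → N') : Prop :=
  ∀ φ : L.Formula α, φ.Realize s ↔ φ.Realize t

/-- Language countable, `Sim` is an equivalence relation, compatible with maps of indices. -/
def S_BAS : Prop := LZ.card ≤ Cardinal.aleph0 ∧ Countable M0 ∧ Infinite M0 ∧
  ∀ (α β : Type) (s t r : α → M0), Sim s s ∧ (Sim s t → Sim t s) ∧ (Sim s t → Sim t r → Sim s r) ∧
    ∀ g : β → α, Sim s t → Sim (s ∘ g) (t ∘ g)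

/-- One more point. Proof: `x = s i`: `y = t i`. Otherwise `x = inl p`: if `val x = lc s c`, take `y = inl q`
with `(q, 1) = lc t c`; if `val x` is not in the span of the values of `s` take `q` with `(q, 1)` not in
the span of the values of `t` (finite). `x = inr (w, k)`: if `val x = lc s c`, `lc t c = (w', 0)`,
`w' ≠ 0`, `y = inr (w', k')` with a new `k'`; otherwise `w'` with `(w', 0)` not in the span. -/
def S_FORTH : Prop := ∀ (α : Type) [Finite α] (s t : α → M0), Sim s t → ∀ x : M0, ∃ y : M0,
  Sim (Sum.elim s (fun _ : Unit => x)) (Sum.elim t (fun _ : Unit => y))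

/-- Who is similar over `s`. (1) points of `P` outside of the span of the values of `s`; (2) points of
`X` with the same value, not in `s`; (3) points of `X` with values outside of the span. -/
def S_OVER : Prop := ∀ (α : Type) [Finite α] (s : α → M0) (x y : M0), (isP x ↔ isP y) →
  (∀ i, s i ≠ x ∧ s i ≠ y) →
  (val x = val y ∨ ((∀ c, lc s c ≠ val x) ∧ (∀ c, lc s c ≠ val y))) →
    Sim (Sum.elim s (fun _ : Unit => x)) (Sum.elim s (fun _ : Unit => y))

/-- Finitely many classes (a tuple is determined up to similarity by elements of finite types: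
`α →₀ ZMod 2` is finite for finite `α`). -/
def S_FINT : Prop := ∀ (α : Type) [Finite α], ∃ F : Set (α → M0), F.Finite ∧ ∀ t, ∃ s ∈ F, Sim s t

/-- Similar tuples have the same type (induction on formulas, as `Geo.inv_aux` in
`Pool/Agent/Run7/h704/LW/MOD1.lean`). -/
def S_INV : Prop := S_BAS → S_FORTH → ∀ (α : Type) [Finite α] (s t : α → M0), Sim s t → STp LZ s t

/-- Tuples of the same type are similar (`lc s c = 0` is an atomic formula, for the tuple of the `s i`
with `c i ≠ 0`). -/
def S_COV : Prop := ∀ (α : Type) (s t : α → M0), STp LZ s t → Sim s t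

/-- Countable categoricity: by `Run7.h781.WO.rn` (`Pool/Agent/Run7/h781/WO/RN.lean`,
`S_RN` in `Pool/Agent/Run7/h520/WO/I.lean`) and `S_FINT`, `S_INV`. -/
def S_CAT : Prop := S_BAS → S_FORTH → S_FINT → S_INV →
  Cardinal.Categorical (Cardinal.aleph0 : Cardinal.{0}) T0

/-- Every countable subset of a model is contained in the range of an elementary embedding of `M0`
(`exists_elementarySubstructure_card_eq` and categoricity). -/
def S_LS : Prop := S_BAS → Cardinal.Categorical (Cardinal.aleph0 : Cardinal.{0}) T0 →
  ∀ (N : Type) [LZ.Structure N] [N ⊨ T0] (A : Set N), A.Countable →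
    ∃ j : M0 ↪ₑ[LZ] N, A ⊆ Set.range j

/-- Sets definable over `A` are invariant under similarity over a finite tuple of `A`. -/
def S_DEF : Prop := S_BAS → S_FORTH → S_INV → ∀ (A D : Set M0), A.Definable₁ LZ D →
  ∃ (m : ℕ) (a : Fin m → M0), (∀ i, a i ∈ A) ∧ ∀ x y : M0,
    Sim (Sum.elim a (fun _ : Unit => x)) (Sum.elim a (fun _ : Unit => y)) → (x ∈ D ↔ y ∈ D)

/-- Algebraic closure in `M0`. Proof: from left to right by `S_DEF`; from right to left: the class is
definable over `a` because it is defined by finitely many atomic formulas and their negations (the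
coefficients `c` are in a finite set). -/
def S_ACL : Prop := S_BAS → S_FORTH → S_INV → S_DEF → ∀ (A : Set M0) (c : M0), c ∈ Acl LZ A ↔
  ∃ (m : ℕ) (a : Fin m → M0), (∀ i, a i ∈ A) ∧
    {y : M0 | Sim (Sum.elim a (fun _ : Unit => c)) (Sum.elim a (fun _ : Unit => y))}.Finite

/-- Algebraic closure and elementary embeddings. -/
def S_UP : Prop := ∀ (L : FirstOrder.Language.{0, 0}) (M N : Type) [L.Structure M] [L.Structure N]
  (j : M ↪ₑ[L] N) (A : Set M), Acl L (j '' A) = j '' (Acl L A)

/-- The example. `x_i = inr (e_i, 0)` for `i ≤ n`, `A = {x_0, ..., x_n}`, `b = inl 0`,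
`c = inl (e_0 + ... + e_n)`. By `S_ACL`, `S_OVER`. -/
def S_EX : Prop := S_BAS → S_OVER →
  (∀ (A : Set M0) (c : M0), c ∈ Acl LZ A ↔
    ∃ (m : ℕ) (a : Fin m → M0), (∀ i, a i ∈ A) ∧
      {y : M0 | Sim (Sum.elim a (fun _ : Unit => c)) (Sum.elim a (fun _ : Unit => y))}.Finite) →
  ∀ n : ℕ, ∃ (A : Set M0) (b c : M0), isP c ∧ Acl LZ A = A ∧ c ∈ Acl LZ (A ∪ {b}) ∧
    ∀ A' ⊆ A, A'.Finite → A'.ncard ≤ n → c ∉ Acl LZ (A' ∪ {b})

/-- `P` is strongly minimal in all the models. Proof: in `M0` by `S_DEF` and `S_OVER`. If `N` is a model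
and `D ∩ P`, `P ∖ D` are infinite, take a countable set containing the parameters of `D` and
infinitely many points of `D ∩ P` and of `P ∖ D`, and `j` from `S_LS`. -/
def S_SM : Prop := S_BAS → S_OVER → S_DEF → S_FORTH → S_INV →
  (∀ (N : Type) [LZ.Structure N] [N ⊨ T0] (A : Set N), A.Countable →
    ∃ j : M0 ↪ₑ[LZ] N, A ⊆ Set.range j) →
  ∀ (N : Type) [LZ.Structure N] [N ⊨ T0],
    {x : N | inP x}.Infinite ∧
    ∀ D : Set N, (Set.univ : Set N).Definable₁ LZ D →
      ({x : N | inP x} ∩ D).Finite ∨
      ({x : N | inP x} \ D).Finite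

/-- Every complete 1-type over the empty set is realized in `M0`. -/
def S_TYP : Prop := S_BAS → Cardinal.Categorical (Cardinal.aleph0 : Cardinal.{0}) T0 →
  ∀ p : T0.CompleteType (Fin 1), ∃ x : M0, Real p x

/-- The type of a point of `X` is not strongly minimal (the points with the same value, defined with
two parameters of `P` and `lin 3`, are infinitely many, and so are the others). The type of a point of
`P` is strongly minimal, and all the points of `P` realize it. -/
def S_STR : Prop := S_BAS → S_INV → S_FORTH →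
  (∀ (N : Type) [LZ.Structure N] [N ⊨ T0],
    {x : N | inP x}.Infinite ∧
    ∀ D : Set N, (Set.univ : Set N).Definable₁ LZ D →
      ({x : N | inP x} ∩ D).Finite ∨
      ({x : N | inP x} \ D).Finite) →
  ∀ (p : T0.CompleteType (Fin 1)) (x : M0), Real p x → (StrMin T0 p ↔ isP x) ∧
    (isP x → ∀ y : M0, isP y → Real p y)

/-- Omega-stability. Proof: let `A ⊆ M` be countable, `T_A` the complete theory of `M` in the language
with names for `A`. Every type over `A` is realized in a countable model of `T_A` (Löwenheim-Skolem),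
which is isomorphic to `M0` as an `LZ`-structure. So it is the type of some `x : M0` in `(M0, f)`,
`f : A → M0` such that `(M0, f)` is a model of `T_A`. This type is determined by: `a` if `x = f a`;
otherwise by `isP x` and (if there is one) a `c : A →₀ ZMod 2` such that `val x = lc f c`
(`S_COV`: for different `f`, `f'` the tuples `f`, `f'` are similar). These are countably many. -/
def S_OS : Prop := S_BAS → S_FORTH → S_INV → S_COV →
  Cardinal.Categorical (Cardinal.aleph0 : Cardinal.{0}) T0 → OmegaStable T0

/-- Assembly. -/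
def S_MAIN : Prop := S_BAS → S_FORTH → S_OVER → S_FINT → S_INV → S_COV → S_CAT → S_LS → S_DEF →
  S_ACL → S_UP → S_EX → S_SM → S_TYP → S_STR → S_OS → Answer

end Run7.h520.MZ
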