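import Pool.Agent.Run7.h520.MZ.I

/-! Piece MAIN. -/

set_option autoImplicit false

namespace Run7.h520.MZ
open FirstOrder FirstOrder.Language

theorem main : S_MAIN := by
  intro hBAS hFORTH hOVER hFINT hINV hCOV hCAT hLS hDEF hACL hUP hEX hSM hTYP hSTR hOS
  have hinv := hINV hBAS hFORTH
  have hcat := hCAT hBAS hFORTH hFINT hINV
  have hls := hLS hBAS hcat
  have hacl := hACL hBAS hFORTH hINV hDEF
  have hsm := hSM hBAS hOVER hDEF hFORTH hINV hls
  have hstr := hSTR hBAS hINV hFORTH hsm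
  have htyp := hTYP hBAS hcat
  have hne : Nonempty M0 := ⟨Sum.inl 0⟩
  have hmod : M0 ⊨ T0 := inferInstanceAs (M0 ⊨ LZ.completeTheory M0)
  refine ⟨LZ, T0, hBAS.1, completeTheory.isComplete LZ M0, hcat, hOS hBAS hFORTH hINV hCOV hcat,
    ?_, ?_⟩
  · let x : M0 := Sum.inl 0
    let p : T0.CompleteType (Fin 1) := T0.typeOf (fun _ => x)
    have hp : Real p x := fun φ => Theory.CompleteType.formula_mem_typeOf
    exact ⟨p, ((hstr p x hp).1).2 trivial⟩
  · intro p hp n M _ _ _
    obtain ⟨x, hx⟩ := htyp p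
    have hxP : isP x := ((hstr p x hx).1).1 hp
    obtain ⟨A, b, c, hc, hA, hcA, hA'⟩ := hEX hBAS hOVER hacl n
    have hcp : Real p c := (hstr p x hx).2 hxP c hc
    obtain ⟨j, _⟩ := hls M ∅ Set.countable_empty
    refine ⟨j '' A, j b, j c, ?_, ?_, ?_, ?_⟩
    · intro φ
      rw [hcp φ]
      exact (j.map_formula φ (fun _ => c)).symm
    · rw [hUP LZ M0 M j A, hA]
    · rw [← Set.image_singleton, ← Set.image_union, hUP LZ M0 M j]
      exact ⟨c, hcA, rfl⟩
    · intro A' hA'1 hfin hcard hmem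
      obtain ⟨A'', hA''1, rfl⟩ : ∃ A'' : Set M0, A'' ⊆ A ∧ j '' A'' = A' :=
        Set.subset_image_iff.1 hA'1
      rw [← Set.image_singleton, ← Set.image_union, hUP LZ M0 M j] at hmem
      obtain ⟨c', hc', hcc'⟩ := hmem
      obtain rfl := j.injective hcc'
      have hfin2 : A''.Finite := Set.Finite.of_finite_image hfin j.injective.injOn
      refine hA' A'' hA''1 hfin2 ?_ hc'
      rwa [Set.ncard_image_of_injective _ j.injective] at hcard

end Run7.h520.MZ
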